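import Pool.Agent.H.MP_a2af9e_co.Blocks

set_option autoImplicit false

namespace Pool.Agent.Results.MP_a2af9e_co.Yes

open Finset Polynomial

/-- `arc` is an orientation of the complete multipartite graph on `Fin n` whose parts are the
fibres of the surjection `part : Fin n → Fin k`: two vertices are joined iff they lie in
different parts, and every edge carries exactly one direction. -/
def IsOrientation {n k : ℕ} (part : Fin n → Fin k) (arc : Fin n → Fin n → Prop) : Prop :=
  (∀ u v, (arc u v ∨ arc v u) ↔ part u ≠ part v) ∧ ∀ u v, arc u v → ¬ arc v u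

/-- `des_D(σ)`: the number of arcs `u → v` with `σ u > σ v`. -/
def des {n : ℕ} (arc : Fin n → Fin n → Prop) [DecidableRel arc] (σ : Equiv.Perm (Fin n)) : ℕ :=
  (univ.filter fun p : Fin n × Fin n => arc p.1 p.2 ∧ σ p.1 > σ p.2).card

/-- The Eulerian polynomial `A_D(t)`. -/
noncomputable def eulerian {n : ℕ} (arc : Fin n → Fin n → Prop) [DecidableRel arc] : ℤ[X] :=
  ∑ σ : Equiv.Perm (Fin n), X ^ des arc σ

/-- The number of parts of odd size. -/
def numOdd {n k : ℕ} (part : Fin n → Fin k) : ℕ :=
  (univ.filter fun i : Fin k => Odd (univ.filter fun v => part v = i).card).card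

/-- For every orientation of a complete multipartite graph with `r` parts of odd size, `-1` is
a root of the Eulerian polynomial of multiplicity exactly `⌊r / 2⌋`. -/
theorem result (n k : ℕ) (part : Fin n → Fin k) (_hpart : Function.Surjective part)
    (arc : Fin n → Fin n → Prop) [DecidableRel arc] (h : IsOrientation part arc) :
    eulerian arc ≠ 0 ∧ (eulerian arc).rootMultiplicity (-1) = numOdd part / 2 := by
  constructor
  · intro h0
    have := congrArg (eval 1) h0
    simp [eulerian, eval_finsetSum, Fintype.card_perm, Nat.factorial_ne_zero] at this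
  have e1 : eulerian arc =
      ∑ τ : Equiv.Perm (Fin n), (X : ℤ[X]) ^ H.MP_a2af9e_co.desP arc τ := by
    unfold eulerian
    rw [← Equiv.sum_comp (Equiv.inv (Equiv.Perm (Fin n)))]
    refine sum_congr rfl fun τ _ => ?_
    congr 1
    symm
    refine card_equiv (τ.prodCongr τ) fun p => ?_
    rw [mem_filter, mem_filter]
    simp [and_comm]
  have e2 : numOdd part = H.MP_a2af9e_co.oddParts part := by
    unfold numOdd H.MP_a2af9e_co.oddParts
    rw [image_univ_of_surjective _hpart]
    simp only [Nat.odd_iff]
  rw [e1, e2]
  exact H.MP_a2af9e_co.mult_eq arc part h.1 h.2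

end Pool.Agent.Results.MP_a2af9e_co.Yes
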